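import Pool.Agent.Helper99.HD.Flat

/-!
# The laws of eigenfunctions: half a derivative in `L¹`, decay of the Fourier transform (MP_a52643_an)

A Riemannian surface in isothermal coordinates: an open set `Ω ⊆ ℂ` with the metric `ρ |dz|²`, of
finite area, so `dvol = ρ dx dy` and `Δ_g = ρ⁻¹ (∂x² + ∂y²)`. It need not be relatively compact: a
compact surface, or a surface of finite area, cut along curves (for example the interior of a
fundamental polygon in the hyperbolic plane).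
-/

set_option autoImplicit false
open MeasureTheory Filter Topology Complex
open scoped ContDiff ENNReal

namespace Pool.Agent.Results.MP_a52643_an.HalfDerivativeH99

noncomputable section

/-- the Laplacian `∂x² + ∂y²` -/
def lapl (f : ℂ → ℝ) (z : ℂ) : ℝ :=
  fderiv ℝ (fun w => fderiv ℝ f w 1) z 1 + fderiv ℝ (fun w => fderiv ℝ f w I) z I

/-- the area measure of the metric `ρ |dz|²` on `Ω` -/
def area (Ω : Set ℂ) (ρ : ℂ → ℝ) : Measure ℂ :=
  (volume.restrict Ω).withDensity (fun z => ENNReal.ofReal (ρ z))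

/-- the law of `f` under the normalised area -/
def law (Ω : Set ℂ) (ρ f : ℂ → ℝ) : Measure ℝ :=
  ((area Ω ρ Set.univ)⁻¹ • area Ω ρ).map f

/-- `u n` are smooth real functions on the surface `Ω`, of finite area, with `Δ u = - lam n u`,
`lam n → ∞`, and the mean of `u n ^ 2` is at most `s ^ 2` -/
structure Waves (Ω : Set ℂ) (ρ : ℂ → ℝ) (lam : ℕ → ℝ) (u : ℕ → ℂ → ℝ) (s : ℝ) : Prop where
  isOpen : IsOpen Ω
  metric : ContDiffOn ℝ ∞ ρ Ω
  pos : ∀ z ∈ Ω, 0 < ρ z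
  area_pos : area Ω ρ Set.univ ≠ 0
  area_fin : area Ω ρ Set.univ ≠ ⊤
  high : Tendsto lam atTop atTop
  smooth : ∀ n, ContDiffOn ℝ ∞ (u n) Ω
  eigen : ∀ n, ∀ z ∈ Ω, lapl (u n) z = -(lam n * (ρ z * u n z))
  nonneg : 0 ≤ s
  moment : ∀ n, Integrable (fun x => x ^ 2) (law Ω ρ (u n)) ∧
    ∫ x, x ^ 2 ∂(law Ω ρ (u n)) ≤ s ^ 2

/-- `ν` is the vague limit of a subsequence of the measures `μ n` -/
def IsLimit (μ : ℕ → Measure ℝ) (ν : Measure ℝ) : Prop :=
  ∃ σ : ℕ → ℕ, StrictMono σ ∧ ∀ g : ℝ → ℝ, Continuous g → HasCompactSupport g →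
    Tendsto (fun n => ∫ x, g x ∂(μ (σ n))) atTop (𝓝 (∫ x, g x ∂ν))

/-- the measure `|x|^(3/2) ν` -/
def weighted (ν : Measure ℝ) : Measure ℝ :=
  ν.withDensity (fun x => ENNReal.ofReal (|x| * √|x|))

/-- the finite measure `μ` changes by at most `c |τ|^(1/2) + e` on every Borel set under the
translation by `τ`, and its Fourier transform is at most `c' |t|^(-1/2) + e` -/
def Regular (μ : Measure ℝ) (c c' e : ℝ) : Prop :=
  IsFiniteMeasure μ ∧
  (∀ A : Set ℝ, MeasurableSet A → ∀ τ : ℝ,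
    |μ.real ((fun x => x + τ) ⁻¹' A) - μ.real A| ≤ c * √|τ| + e) ∧
  ∀ t : ℝ, t ≠ 0 → ‖charFun μ t‖ ≤ c' / √|t| + e

/-- `μ` has a density `w ∈ L¹` with `∫ |w(x + τ) - w(x)| dx ≤ C |τ|^(1/2)` for all `τ` -/
def HalfDerivative (μ : Measure ℝ) (C : ℝ) : Prop :=
  ∃ w : ℝ → ℝ, Measurable w ∧ (∀ x, 0 ≤ w x) ∧ Integrable w ∧
    μ = volume.withDensity (fun x => ENNReal.ofReal (w x)) ∧
    ∀ τ : ℝ, ∫ x, |w (x + τ) - w x| ≤ C * √|τ|

open Pool.Agent.E8helper19.LW Pool.Agent.Helper99.HD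
open Pool.Agent.Y139.PD (cut cut_co cut_0 cut_1 cut_e cut_s)

lemma sqrt_two_div {c c' t : ℝ} (ht : t ≠ 0) (c0 : 0 ≤ c) (h : c * (23 / 16) ≤ c') :
    c * √(2 / |t|) ≤ c' / √|t| := by
  have t0 : 0 < √|t| := Real.sqrt_pos.2 (abs_pos.2 ht)
  rw [Real.sqrt_div (by norm_num), ← mul_div_assoc]
  refine div_le_div_of_nonneg_right (le_trans ?_ h) t0.le
  refine mul_le_mul_of_nonneg_left ?_ c0
  rw [Real.sqrt_le_left (by norm_num)]
  norm_num

/-- from the basic property to the two statements -/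
lemma regular_of {ν : Measure ℝ} [IsFiniteMeasure ν] (i2 : Integrable (fun x => x ^ 2) ν)
    {c₀ e₀ c c' e : ℝ} (c0 : 0 ≤ c₀) (hc0 : c₀ ≤ c) (e0 : 0 ≤ e) (he : e₀ ≤ e)
    (hc : c₀ * (23 / 16) ≤ c') (H : Sgn ν c₀ e₀) : Regular (weighted ν) c c' e := by
  have fw : IsFiniteMeasure (wlaw ν) := by
    refine wlaw_fin (D := ∫ x, (1 + x ^ 2) ∂ν) fun N => ?_
    refine integral_mono (((cut_co N).mul W_co).integrable_of_hasCompactSupport
      (cut_s N).mul_right) ((integrable_const 1).add i2) fun x => ?_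
    have h0 : 0 ≤ |x| * √|x| := by positivity
    exact (mul_le_of_le_one_left h0 (cut_1 N x)).trans (W_le x)
  refine ⟨fw, sets_of fw e0 fun g δ sg _ g1 hδ gP => ?_, fun t ht => ?_⟩
  · refine (H g δ sg g1 hδ gP).trans ?_
    have := mul_le_mul_of_nonneg_right hc0 (Real.sqrt_nonneg δ)
    linarith
  · have h1 : ‖charFun (weighted ν) t‖ ≤ c₀ * √(2 / |t|) + e₀ := char_of fw H ht
    have h2 := sqrt_two_div ht c0 hc
    linarith

/-- the first half -/
theorem part_one (Ω : Set ℂ) (ρ : ℂ → ℝ) (lam : ℕ → ℝ) (u : ℕ → ℂ → ℝ) (s : ℝ)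
    (W : Waves Ω ρ lam u s) :
    (∀ ε : ℝ, 0 < ε → ∀ᶠ n in atTop,
      Regular (weighted (law Ω ρ (u n))) (16 * s + ε) (23 * s + ε) ε) ∧
    ∀ ν : Measure ℝ, IsFiniteMeasure ν → IsLimit (fun n => law Ω ρ (u n)) ν →
      HalfDerivative (weighted ν) (32 * s) ∧
      ∀ t : ℝ, t ≠ 0 → ‖charFun (weighted ν) t‖ ≤ 23 * s / √|t| := by
  obtain ⟨hΩ, hρ, ρ0, hne, fin, hlam, hu, he, s0, hQ⟩ := W
  obtain ⟨pr, U⟩ := U4g hΩ hne hρ ρ0 hlam hu (fun n z hz => by
    have h1 := he n z hz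
    have h2 : Pool.Agent.Results.MP_a52643_an.AbsoluteContinuity.lapl (u n) z = lapl (u n) z := rfl
    rw [h2, h1]; ring) fin s0 hQ
  refine ⟨fun ε ε0 => ?_, fun ν hν hlim => ?_⟩
  · filter_upwards [U (ε / 2) (by positivity)] with n hn
    have fn : IsProbabilityMeasure (law Ω ρ (u n)) := pr n
    exact regular_of (hQ n).1 (by positivity) (by linarith) ε0.le (by linarith) (by linarith) hn
  · obtain ⟨w, mw, w0, iw, ww, wm, wf⟩ := limit_case (μ := fun n => law Ω ρ (u n)) (ν := ν)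
      (c := 16 * s) (D0 := 1) (D := s ^ 2) (by positivity) (Eventually.of_forall fun n => by
        have fn : IsProbabilityMeasure (law Ω ρ (u n)) := pr n
        exact ⟨inferInstance, by rw [probReal_univ], (hQ n).1, (hQ n).2⟩) U hlim
    refine ⟨⟨w, mw, w0, iw, ww, fun τ => ?_⟩, fun t ht => ?_⟩
    · have := wm τ
      have e : 2 * (16 * s) * √|τ| = 32 * s * √|τ| := by ring
      rw [← e]; exact this
    · exact (wf t ht).trans (sqrt_two_div ht (by positivity) (by linarith))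

/-- the second half -/
theorem part_two : ∃ (Ω : Set ℂ) (ρ : ℂ → ℝ) (lam : ℕ → ℝ) (u : ℕ → ℂ → ℝ) (ν : Measure ℝ),
      Waves Ω ρ lam u 1 ∧ IsProbabilityMeasure ν ∧ IsLimit (fun n => law Ω ρ (u n)) ν ∧
      ∀ τ : ℝ, 0 < τ → τ ≤ 1 → √τ / 20 ≤
        |(weighted ν).real ((fun x => x + τ) ⁻¹' Set.Ioi 1) - (weighted ν).real (Set.Ioi 1)| := by
  refine ⟨sq, fun _ => 1, fun n => (n : ℝ) ^ 2, wave, arcs, ⟨sq_open, contDiffOn_const,
    fun _ _ => one_pos, ?_, ?_, ?_, fun n => (wave_smooth n).contDiffOn, fun n z _ => ?_,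
    zero_le_one, fun n => ?_⟩, arcs_prob, ⟨fun n => n + 1, fun a b h => Nat.succ_lt_succ h,
    fun g cg _ => ?_⟩, fun τ hτ hτ1 => arcs_trans hτ hτ1⟩
  · have : area sq (fun _ => 1) = volume.restrict sq := sq_area
    rw [this]; exact sq_pos
  · have : area sq (fun _ => 1) = volume.restrict sq := sq_area
    rw [this]; exact sq_fin
  · exact (tendsto_pow_atTop two_ne_zero).comp tendsto_natCast_atTop_atTop
  · show fderiv ℝ (fun w => fderiv ℝ (wave n) w 1) z 1 +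
      fderiv ℝ (fun w => fderiv ℝ (wave n) w I) z I = _
    rw [wave_lapl, one_mul]
  · have := sq_mom n
    rw [one_pow]; exact this
  · refine tendsto_const_nhds.congr fun n => ?_
    exact (sq_law cg (Nat.succ_pos n)).symm

/-- **The laws of eigenfunctions have half a derivative in `L¹` away from zero, and their Fourier
transforms decay like `|t|^(-1/2)`; the exponent is optimal.** -/
theorem result :
    (∀ (Ω : Set ℂ) (ρ : ℂ → ℝ) (lam : ℕ → ℝ) (u : ℕ → ℂ → ℝ) (s : ℝ), Waves Ω ρ lam u s →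
      (∀ ε : ℝ, 0 < ε → ∀ᶠ n in atTop,
        Regular (weighted (law Ω ρ (u n))) (16 * s + ε) (23 * s + ε) ε) ∧
      ∀ ν : Measure ℝ, IsFiniteMeasure ν → IsLimit (fun n => law Ω ρ (u n)) ν →
        HalfDerivative (weighted ν) (32 * s) ∧
        ∀ t : ℝ, t ≠ 0 → ‖charFun (weighted ν) t‖ ≤ 23 * s / √|t|) ∧
    ∃ (Ω : Set ℂ) (ρ : ℂ → ℝ) (lam : ℕ → ℝ) (u : ℕ → ℂ → ℝ) (ν : Measure ℝ),
      Waves Ω ρ lam u 1 ∧ IsProbabilityMeasure ν ∧ IsLimit (fun n => law Ω ρ (u n)) ν ∧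
      ∀ τ : ℝ, 0 < τ → τ ≤ 1 → √τ / 20 ≤
        |(weighted ν).real ((fun x => x + τ) ⁻¹' Set.Ioi 1) - (weighted ν).real (Set.Ioi 1)| :=
  ⟨part_one, part_two⟩

end

end Pool.Agent.Results.MP_a52643_an.HalfDerivativeH99
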