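import Pool.Agent.H25.TI.L3
import Pool.Agent.H25.TI.M2
import Pool.Agent.H25.TI.M5
import Pool.Agent.H25.TI.M6
import Pool.Graph.R_pool_sql_team_seeded_b677cdb8.E8helper33.EN.Ibp
import Pool.Graph.R_pool_sql_team_seeded_b677cdb8.E8helper8.EN.Vag
import Pool.Graph.R_pool_sql_team_seeded_b677cdb8.E8helper41.EN.Fub

/-!
# The length of the level curves of eigenfunctions: a lower bound at all heights (MP_a52643_an)

A Riemannian surface is described by finitely many isothermal charts: open sets `Ω i ⊆ ℂ` with the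
metrics `ρ i |dz|²`, so `dvol = ρ dx dy`, `Δ_g = ρ⁻¹ (∂x² + ∂y²)` and
`|∇_g u| dvol = √ρ |∇u| dx dy`. The functions `u i n` are the coordinate forms of real
eigenfunctions with the eigenvalue `lam n`, and `φ i` are nonnegative test functions, for instance
a partition of unity of a compact surface `X`, when `value ρ φ u n g = ∫_X g(u_n) dvol` and
`bandLength = λ_n^(-1/2) ∫_{a < u_n < b} |∇_g u_n| dvol`, which by the coarea formula is the
integral of the length of the curve `{u_n = s}`, divided by `√λ_n`, over the heights `s ∈ (a, b)`.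
-/

set_option autoImplicit false
open MeasureTheory Filter Topology Complex Set
open scoped ContDiff ENNReal NNReal

namespace Pool.Agent.Results.MP_a52643_an.LevelLengths

noncomputable section

/-- the Laplacian `∂x² + ∂y²` -/
def lapl (f : ℂ → ℝ) (z : ℂ) : ℝ :=
  fderiv ℝ (fun w => fderiv ℝ f w 1) z 1 + fderiv ℝ (fun w => fderiv ℝ f w I) z I

/-- `|∇f|` in the plane -/
def gradNorm (f : ℂ → ℝ) (z : ℂ) : ℝ := √(fderiv ℝ f z 1 ^ 2 + fderiv ℝ f z I ^ 2)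

/-- A chart `Ω` with the metric `ρ |dz|²`, real solutions `u n` of `Δ_g u + lam n u = 0` with
`lam n → ∞`, locally bounded in `L²`, and a nonnegative test function `φ`. -/
structure Chart (Ω : Set ℂ) (ρ : ℂ → ℝ) (lam : ℕ → ℝ) (u : ℕ → ℂ → ℝ) (φ : ℂ → ℝ) : Prop where
  isOpen : IsOpen Ω
  metric_smooth : ContDiffOn ℝ ∞ ρ Ω
  metric_pos : ∀ z ∈ Ω, 0 < ρ z
  lam_tendsto : Tendsto lam atTop atTop
  smooth : ∀ n, ContDiffOn ℝ ∞ (u n) Ω
  eigen : ∀ n, ∀ z ∈ Ω, lapl (u n) z + lam n * (ρ z * u n z) = 0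
  locL2 : ∀ K : Set ℂ, IsCompact K → K ⊆ Ω → ∃ C : ℝ, ∀ᶠ n in atTop, ∫ z in K, u n z ^ 2 ≤ C
  test_smooth : ContDiff ℝ ∞ φ
  test_compact : HasCompactSupport φ
  test_support : tsupport φ ⊆ Ω
  test_nonneg : ∀ z, 0 ≤ φ z

variable {ι : Type} [Fintype ι]

/-- the law of the values of `u_n`: `g ↦ ∑ ∫ φ g(u_n) dvol` -/
def value (ρ φ : ι → ℂ → ℝ) (u : ι → ℕ → ℂ → ℝ) (n : ℕ) (g : ℝ → ℝ) : ℝ :=
  ∑ i, ∫ z, φ i z * (g (u i n z) * ρ i z)

/-- `λ_n^(-1/2) ∑ ∫_{a < u_n < b} φ |∇u_n| dvol` -/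
def bandLength (ρ φ : ι → ℂ → ℝ) (lam : ℕ → ℝ) (u : ι → ℕ → ℂ → ℝ) (n : ℕ) (a b : ℝ) : ℝ :=
  (√(lam n))⁻¹ * ∑ i, ∫ z, φ i z *
    (√(ρ i z) * if a < u i n z ∧ u i n z < b then gradNorm (u i n) z else 0)

/-- the integrated tail `∫ (x - s)⁺ dν(x)`; it is `T e` for the tail `T = ν((s,∞))` and the mean
excess `e` over the level `s` -/
def tailInt (ν : Measure ℝ) (s : ℝ) : ℝ := ∫ x, max (x - s) 0 ∂ν

/-- `T √(1 + s/e)` for the tail `T = ν((s,∞))` and the mean excess `e = ∫ (x - s)⁺ dν(x) / T` -/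
def weight (ν : Measure ℝ) (s : ℝ) : ℝ :=
  ν.real (Ioi s) * √(1 + s * ν.real (Ioi s) / tailInt ν s)

/-- for all heights `0 ≤ a < b` the integral of `weight ν` over `(a, b)` is finite and
asymptotically at most `2 √3 (1 + 1/π) L n a b` -/
def LowerBound (ν : Measure ℝ) (L : ℕ → ℝ → ℝ → ℝ) : Prop := ∀ a b : ℝ, 0 ≤ a → a < b →
  IntervalIntegrable (weight ν) volume a b ∧
  ∀ ε : ℝ, 0 < ε → ∀ᶠ n in atTop,
    ∫ s in a..b, weight ν s ≤ 2 * √3 * (1 + 1 / Real.pi) * L n a b + ε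

/-- **Result.** Let the laws of the values converge vaguely to a finite measure `ν` along a
subsequence. Then for all `0 ≤ a < b`
`∫_a^b T(s) √(1 + s/e(s)) ds ≤ 2 √3 (1 + 1/π) liminf λ_n^(-1/2) ∫_{a < u_n < b} |∇u_n|`,
`T(s) = ν((s,∞))`, `e(s)` the mean excess; and the same holds for the heights `-b < u_n < -a` and
the reflected law. -/
theorem result (ι : Type) [Fintype ι] [Nonempty ι] (Ω : ι → Set ℂ) (ρ φ : ι → ℂ → ℝ)
    (lam : ℕ → ℝ) (u : ι → ℕ → ℂ → ℝ) (H : ∀ i, Chart (Ω i) (ρ i) lam (u i) (φ i)) (σ : ℕ → ℕ)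
    (ν : Measure ℝ) (hσ : StrictMono σ) (hν : IsFiniteMeasure ν)
    (hlim : ∀ g : ℝ → ℝ, Continuous g → HasCompactSupport g →
      Tendsto (fun n => value ρ φ u (σ n) g) atTop (𝓝 (∫ x, g x ∂ν))) :
    LowerBound ν (fun n a b => bandLength ρ φ lam u (σ n) a b) ∧
      LowerBound (ν.map fun x => -x) (fun n a b => bandLength ρ φ lam u (σ n) (-b) (-a)) := by
  have K : ∀ i, Pool.Agent.E8helper19.EN.Hy (Ω i) (ρ i) lam (u i) (φ i) := fun i =>
    ⟨(H i).isOpen, (H i).metric_smooth, (H i).metric_pos, (H i).lam_tendsto, (H i).smooth,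
      (H i).eigen, (H i).locL2, (H i).test_smooth, (H i).test_compact, (H i).test_support,
      (H i).test_nonneg⟩
  have K' : ∀ i, Pool.Agent.E8helper19.EN.Hy (Ω i) (ρ i) (fun n => lam (σ n))
      (fun n => u i (σ n)) (φ i) := fun i => (K i).sub hσ
  exact Pool.Agent.H25.TI.len_both Pool.Agent.E8helper33.EN.t_IBP Pool.Agent.E8helper8.EN.t_VAG
    Pool.Agent.E8helper41.EN.t_FUB Pool.Agent.H25.TI.m2 Pool.Agent.H25.TI.m5
    Pool.Agent.H25.TI.m6 K' hν hlim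

end

end Pool.Agent.Results.MP_a52643_an.LevelLengths
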