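import Mathlib
import Pool.Agent.Helper35.SV.Surf
import Pool.Agent.Helper35.SV.Lim
import Pool.Agent.Helper35.SV.Fin
import Pool.Agent.Helper26.SV.MV
import Pool.Agent.Helper26.SV.Sharp
import Pool.Graph.R_pool_sql_team_seeded_3997aac3.Results.MP_a52643_an.PlaneWavesExtremal

/-!
# Sharp lower bound for the density at zero of the limit laws of eigenfunctions on surfaces (MP_a52643_an)

Let `M` be a Riemannian surface (any curvature, compact or not), `D` an open subset of finite area and `f_n`
real eigenfunctions with eigenvalues `λ_n → ∞` whose squares have mean at most `B` over `D`. Every weak limit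
`ν` of the laws of `f_n` on `D` without atom at zero has near zero a density at least
`(2/π²) / ∫ |x| dν ≥ 1 / (π √(2 B))`; for plane waves `√(2 B) cos` both inequalities are equalities.

Proof. Small pieces of a chart, `Δu + V u = 0`, `V` almost constant. Let `Θ` be a weight function supported in
`[-s, s]` with the mass `m`. (1) Circles: a circle that meets `{u ≥ s}` and `{u ≤ -s}` contributes at least `2 m`
to the variation of the primitive of `Θ` along it; Fubini: the centres of such circles of radius `t` have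
the area at most `(2 t / m) ∫ Θ(u) |∇u|`. (2) If a disc of radius `t < π / (2 √V (1 - τ))` has a zero of `u` at a
distance at least `τ t` from its circle and the circle misses `{u ≥ s}` or `{u ≤ -s}`, then `|u| ≤ 162 s`
on a set of area at least `π τ² t² / 2` in the disc: barrier and minimum principle, mean value inequality
for superharmonic functions. (3) The test function `sin (min (√V δ) (π/2))`, `δ` the distance to the zeros, gives
`∫ Θ(u) |∇u| ≥ m (1 - τ) (√V / π) (area - (4/τ²) area {|u| ≤ 162 s})` up to the boundary. (4) The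
Cauchy-Schwarz inequality and the energy identity `∫ Θ(u) |∇u|² = λ ∫ X(u) u`, `X` the primitive of `Θ`,
`X(u) u ≤ (m/2) |u|`. (5) `λ → ∞`, then `s → 0`, then `τ → 0`.
-/

set_option autoImplicit false
open MeasureTheory Filter Topology Complex
open scoped ContDiff ENNReal

namespace Pool.Agent.Results.MP_a52643_an.SmallValuesSharp

noncomputable section

universe u v

/-- the Laplacian of the plane `ℂ`: `∂_x² + ∂_y²` -/
def laplacian (f : ℂ → ℝ) (z : ℂ) : ℝ :=
  fderiv ℝ (fun w => fderiv ℝ f w 1) z 1 + fderiv ℝ (fun w => fderiv ℝ f w I) z I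

/-- An isothermal atlas of a Riemannian surface `M`: the charts `φ i`, defined on the open sets `U i` of
the plane, are homeomorphisms onto open sets that cover `M`; the metric is `ρ i |dz|²` in the `i`-th
chart, `ρ i` smooth, that is, the area `area` of `M` is `∫ ρ i dx dy` and the length `len` (one-dimensional
Hausdorff measure) is `∫ √(ρ i) dH¹`, for the Borel subsets of the chart. -/
structure IsothermalAtlas {M ι : Type*} [TopologicalSpace M] [MeasurableSpace M] (U : ι → Set ℂ)
    (φ : ι → ℂ → M) (ρ : ι → ℂ → ℝ) (area len : Measure M) : Prop where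
  isOpen_domain : ∀ i, IsOpen (U i)
  continuous_chart : ∀ i, ContinuousOn (φ i) (U i)
  injective_chart : ∀ i, Set.InjOn (φ i) (U i)
  open_chart : ∀ i (S : Set ℂ), IsOpen S → S ⊆ U i → IsOpen (φ i '' S)
  cover : ∀ x : M, ∃ i, x ∈ φ i '' U i
  density_pos : ∀ i, ∀ z ∈ U i, 0 < ρ i z
  density_smooth : ∀ i, ContDiffOn ℝ ∞ (ρ i) (U i)
  area_chart : ∀ i (S : Set ℂ), MeasurableSet S → S ⊆ U i →
    area (φ i '' S) = ∫⁻ z in S, ENNReal.ofReal (ρ i z)
  len_chart : ∀ i (S : Set ℂ), MeasurableSet S → S ⊆ U i →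
    len (φ i '' S) = ∫⁻ z in S, ENNReal.ofReal (Real.sqrt (ρ i z)) ∂(μH[1] : Measure ℂ)

/-- `f` is a real smooth function on `M` with `Δ_g f + lam f = 0`: in the chart `φ i` the
Laplace-Beltrami operator is `Δ / ρ i` -/
def IsEigenfunction {M ι : Type*} (U : ι → Set ℂ) (φ : ι → ℂ → M) (ρ : ι → ℂ → ℝ) (lam : ℝ)
    (f : M → ℝ) : Prop :=
  ∀ i, ContDiffOn ℝ ∞ (fun z => f (φ i z)) (U i) ∧
    ∀ z ∈ U i, laplacian (fun z => f (φ i z)) z + lam * ρ i z * f (φ i z) = 0

/-- the mean of `g` over `D` -/
def mean {M : Type*} [MeasurableSpace M] (area : Measure M) (D : Set M) (g : M → ℝ) : ℝ :=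
  (∫ x in D, g x ∂area) / (area D).toReal

/-- `ν` is the weak limit, along a subsequence, of the laws of `f n` on `D` -/
def IsWeakLimit {M : Type*} [MeasurableSpace M] (area : Measure M) (D : Set M) (f : ℕ → M → ℝ)
    (ν : Measure ℝ) : Prop :=
  ∃ σ : ℕ → ℕ, StrictMono σ ∧ ∀ g : ℝ → ℝ, Continuous g → (∃ C, ∀ x, |g x| ≤ C) →
    Tendsto (fun n => mean area D (fun x => g (f (σ n) x))) atTop (𝓝 (∫ x, g x ∂ν))

/-- near zero the density of `ν` is at least `c`: for every `c' < c` there is a neighbourhood `[-s, s]` of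
zero in which `ν A ≥ c' |A|` for all `A`, `|A|` the Lebesgue measure -/
def DensityNearZero (ν : Measure ℝ) (c : ℝ) : Prop :=
  ∀ c' : ℝ, c' < c → ∃ s : ℝ, 0 < s ∧ ∀ A ⊆ Set.Icc (-s) s, ENNReal.ofReal c' * volume A ≤ ν A

theorem plane_lap (r k : ℝ) (z : ℂ) : laplacian (fun z => r * Real.cos (k * z.re)) z +
    k ^ 2 * (r * Real.cos (k * z.re)) = 0 := by
  have h1 : ∀ z : ℂ, HasFDerivAt (fun z : ℂ => z.re) Complex.reCLM z := fun z =>
    Complex.reCLM.hasFDerivAt
  have h3 : ∀ z : ℂ, fderiv ℝ (fun z : ℂ => r * Real.cos (k * z.re)) z =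
      (r * (-Real.sin (k * z.re) * k)) • Complex.reCLM := by
    intro z
    have h4 := (((h1 z).const_mul k).cos).const_mul r
    rw [h4.fderiv]
    ext
    · simp
      ring
  have e1 : (fun w => fderiv ℝ (fun z : ℂ => r * Real.cos (k * z.re)) w 1) =
      fun w : ℂ => r * (-Real.sin (k * w.re) * k) := by
    funext w
    rw [h3]
    simp
  have e2 : (fun w => fderiv ℝ (fun z : ℂ => r * Real.cos (k * z.re)) w I) = fun _ : ℂ => 0 := by
    funext w
    rw [h3]
    simp
  unfold laplacian
  rw [e1, e2]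
  have h5 := ((((h1 z).const_mul k).sin.neg).mul_const k).const_mul r
  have h6 : fderiv ℝ (fun w : ℂ => r * (-Real.sin (k * w.re) * k)) z = _ := h5.fderiv
  rw [h6]
  simp
  ring

theorem plane_atlas : IsothermalAtlas (fun _ : Unit => (Set.univ : Set ℂ)) (fun _ z => z)
    (fun _ _ => 1) (volume : Measure ℂ) (μH[1] : Measure ℂ) := by
  refine ⟨fun _ => isOpen_univ, fun _ => continuous_id.continuousOn, fun _ => Set.injOn_id _,
    fun _ S hS _ => by simpa using hS, fun x => ⟨(), by simp⟩, fun _ _ _ => one_pos,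
    fun _ => contDiffOn_const, fun _ S hS _ => ?_, fun _ S hS _ => ?_⟩
  · simp
  · simp

/-- **Sharp lower bound for the density near zero.** (1) Let `M` be a Riemannian surface given by an isothermal
atlas, `f n` eigenfunctions with eigenvalues `lam n → ∞`, `D` an open subset of finite area such that the means
of `f_n²` over `D` are at most `B`, and `ν` a weak limit of the laws of `f_n` on `D`. If `ν` has no atom at zero,
its density near zero is at least `(2/π²) / ∫ |x| dν` and at least `1 / (π √(2 B))`. In general, for all `s > 0`,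
`0 < τ ≤ 1/10` and `A ⊆ [-s, s]`, `(2/π²) (1 - τ)² (1 - (4/τ²) ν [-162 s, 162 s])₊² |A| ≤ ν(A) ∫ |x| dν`.
(2) For every `B > 0` there are eigenfunctions of the flat plane and a square `D` of area one with mean `B` of
the squares such that the laws on `D` converge to a `ν` without atom at zero whose density at zero is equal to
`1 / (π √(2 B)) = (2/π²) / ∫ |x| dν`. -/
theorem result :
    (∀ (M : Type u) (ι : Type v) [TopologicalSpace M] [T2Space M] [SecondCountableTopology M]
      [MeasurableSpace M] [BorelSpace M] (U : ι → Set ℂ) (φ : ι → ℂ → M) (ρ : ι → ℂ → ℝ)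
      (area len : Measure M), IsothermalAtlas U φ ρ area len →
      ∀ (lam : ℕ → ℝ) (f : ℕ → M → ℝ), Tendsto lam atTop atTop →
        (∀ n, IsEigenfunction U φ ρ (lam n) (f n)) → ∀ (D : Set M) (B : ℝ), IsOpen D →
        0 < area D → area D ≠ ⊤ → (∀ n, IntegrableOn (fun x => f n x ^ 2) D area) →
        (∀ n, mean area D (fun x => f n x ^ 2) ≤ B) →
        ∀ ν : Measure ℝ, IsProbabilityMeasure ν → IsWeakLimit area D f ν →
          (ν {0} = 0 → DensityNearZero ν (2 / Real.pi ^ 2 / ∫ x, |x| ∂ν) ∧
            DensityNearZero ν (1 / (Real.pi * √(2 * B)))) ∧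
          ∀ τ s : ℝ, 0 < τ → τ ≤ 1 / 10 → 0 < s → ∀ A ⊆ Set.Icc (-s) s,
            ENNReal.ofReal (2 / Real.pi ^ 2 * (1 - τ) ^ 2 *
              max 0 (1 - 4 / τ ^ 2 * ν.real (Set.Icc (-(162 * s)) (162 * s))) ^ 2) * volume A ≤
                ν A * ∫⁻ x, ENNReal.ofReal |x| ∂ν) ∧
    (∀ B : ℝ, 0 < B → ∃ (lam : ℕ → ℝ) (f : ℕ → ℂ → ℝ) (D : Set ℂ) (ν : Measure ℝ),
      IsothermalAtlas (fun _ : Unit => (Set.univ : Set ℂ)) (fun _ z => z) (fun _ _ => 1)
        (volume : Measure ℂ) (μH[1] : Measure ℂ) ∧ Tendsto lam atTop atTop ∧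
      (∀ n, IsEigenfunction (fun _ : Unit => (Set.univ : Set ℂ)) (fun _ z => z) (fun _ _ => 1)
        (lam n) (f n)) ∧ IsOpen D ∧ volume D = 1 ∧
      (∀ n, IntegrableOn (fun x => f n x ^ 2) D) ∧
      (∀ n, mean volume D (fun x => f n x ^ 2) = B) ∧ IsProbabilityMeasure ν ∧
      IsWeakLimit volume D f ν ∧ ν {0} = 0 ∧
      Tendsto (fun s : ℝ => ν (Set.Icc (-s) s) / ENNReal.ofReal (2 * s)) (𝓝[>] 0)
        (𝓝 (ENNReal.ofReal (1 / (Real.pi * √(2 * B))))) ∧
      2 / Real.pi ^ 2 / (∫ x, |x| ∂ν) = 1 / (Real.pi * √(2 * B))) := by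
  have hpi := Real.pi_pos
  -- the two forms of the bound
  have form : ∀ B : ℝ, 0 < B → 2 / Real.pi ^ 2 / (2 / Real.pi * √(2 * B)) =
      1 / (Real.pi * √(2 * B)) := by
    intro B hB
    have h0 : 0 < √(2 * B) := Real.sqrt_pos.2 (by positivity)
    field_simp
  refine ⟨?_, ?_⟩
  · intro M ι _ _ _ _ _ U φ ρ area len h lam f hl he D B hD V0' hfin hi hB ν hν hlim
    have V0 : 0 < (area D).toReal := ENNReal.toReal_pos V0'.ne' hfin
    have hA : SharpNodalLength.IsothermalAtlas U φ ρ area len :=
      ⟨h.isOpen_domain, h.continuous_chart, h.injective_chart, h.open_chart, h.cover, h.density_pos,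
        fun i => (h.density_smooth i).continuousOn, h.area_chart, h.len_chart⟩
    have hP : PlaneWavesExtremal.IsothermalAtlas U φ ρ area len :=
      ⟨h.isOpen_domain, h.continuous_chart, h.injective_chart, h.open_chart, h.cover, h.density_pos,
        h.density_smooth, h.area_chart, h.len_chart⟩
    have hb : ∀ n, ∫ x in D, f n x ^ 2 ∂area ≤ (area D).toReal * B := by
      intro n
      have := hB n
      unfold mean at this
      rwa [div_le_iff₀ V0, mul_comm] at this
    have hb' : ∀ n, ∫⁻ x in D, ENNReal.ofReal (f n x ^ 2) ∂area ≤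
        ENNReal.ofReal ((area D).toReal * B) := by
      intro n
      rw [← ofReal_integral_eq_lintegral_ofReal (hi n) (ae_of_all _ fun x => sq_nonneg _)]
      exact ENNReal.ofReal_le_ofReal (hb n)
    have B0 : 0 ≤ B := le_trans (div_nonneg (integral_nonneg fun x => sq_nonneg _) V0.le) (hB 0)
    -- the first moment
    have k1 : PlaneWavesExtremal.kappa 1 = 2 / Real.pi := (PlaneWavesExtremal.result.{u, v}).2.2.1
    have hmom := ((PlaneWavesExtremal.result.{u, v}).1 M ι U φ ρ area len hP lam f hl
      (fun n i => he n i) D B hD V0' hfin hi hB).2 ν hν hlim 1 one_pos (by norm_num)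
    have hmom' : ∫⁻ x, ENNReal.ofReal |x| ∂ν ≤ ENNReal.ofReal (2 / Real.pi * √(2 * B)) := by
      rw [k1, ← Real.sqrt_eq_rpow] at hmom
      simpa only [Real.rpow_one] using hmom
    have hI : Integrable (fun x : ℝ => |x|) ν := by
      refine ⟨continuous_abs.aestronglyMeasurable, ?_⟩
      rw [hasFiniteIntegral_iff_ofReal (ae_of_all _ fun x => abs_nonneg x)]
      exact hmom'.trans_lt ENNReal.ofReal_lt_top
    have hII : ∫⁻ x, ENNReal.ofReal |x| ∂ν = ENNReal.ofReal (∫ x, |x| ∂ν) :=
      (ofReal_integral_eq_lintegral_ofReal hI (ae_of_all _ fun x => abs_nonneg x)).symm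
    obtain ⟨mf, -⟩ := Pool.Agent.Q73.PW.j16 M ι U φ ρ area len hA h.density_smooth lam f D
      ((area D).toReal * B) hl (fun n i => he n i) hD hb'
    obtain ⟨σ, hσ, hg⟩ := hlim
    have Q : 0 < ∫ x, |x| ∂ν → ∀ τ : ℝ, 0 < τ → τ ≤ 1 / 10 → ∀ s : ℝ, 0 < s → ∀ A ⊆ Set.Icc (-s) s,
        ENNReal.ofReal (Pool.Agent.Helper35.SV.kc ν τ s / ∫ x, |x| ∂ν) * volume A ≤ ν A := by
      intro hIp τ hτ hτ1 s hs A hAs
      refine Pool.Agent.Helper35.SV.quant hτ1 hIp hs (fun Θ hΘ hms => ?_) hAs
      refine Pool.Agent.Helper35.SV.limit_law hfin V0 mf hi hb hσ hg hI hΘ.cont hΘ.nn hΘ.le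
        (R := 162 * s) (Pool.Agent.Helper35.SV.cst_pos hms hτ1) (by positivity) (by positivity) ?_
      intro η hη
      exact Pool.Agent.Helper35.SV.surface Pool.Agent.Helper26.SV.mv M ι U φ ρ area len hA
        h.density_smooth lam f D ((area D).toReal * B) hl (fun n i => he n i) hD hfin hb' Θ s hΘ hms
        τ hτ hτ1 η hη
    refine ⟨fun h0 => ?_, fun τ s hτ hτ1 hs A hAs => ?_⟩
    · have hIp := Pool.Agent.Helper35.SV.I_pos hI (by rw [h0]; exact zero_ne_one)
      have hden : DensityNearZero ν (2 / Real.pi ^ 2 / ∫ x, |x| ∂ν) := fun c hc =>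
        Pool.Agent.Helper35.SV.density hI h0 (Q hIp) hc
      refine ⟨hden, fun c hc => hden c (lt_of_lt_of_le hc ?_)⟩
      rcases B0.eq_or_lt with hB0 | hB0
      · rw [← hB0]
        simp only [mul_zero, Real.sqrt_zero, div_zero]
        positivity
      · rw [← form B hB0]
        rw [hII, ENNReal.ofReal_le_ofReal_iff (by positivity)] at hmom'
        exact div_le_div_of_nonneg_left (by positivity) hIp hmom'
    · rw [hII]
      by_cases h0 : ν {0} = 1
      · have h1 : ν.real (Set.Icc (-(162 * s)) (162 * s)) = 1 := by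
          have h2 : ν (Set.Icc (-(162 * s)) (162 * s)) = 1 := by
            refine le_antisymm prob_le_one ?_
            rw [← h0]
            refine measure_mono fun x hx => ?_
            rw [Set.mem_singleton_iff] at hx
            rw [hx]
            constructor <;> linarith
          rw [measureReal_def, h2]
          simp
        have h3 : max 0 (1 - 4 / τ ^ 2 * ν.real (Set.Icc (-(162 * s)) (162 * s))) = 0 := by
          rw [h1, max_eq_left]
          have h4 : τ ^ 2 ≤ 4 := by nlinarith
          have : 1 ≤ 4 / τ ^ 2 := by rw [le_div_iff₀ (by positivity)]; linarith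
          linarith
        rw [h3]
        simp
      · have hIp := Pool.Agent.Helper35.SV.I_pos hI h0
        have h1 := mul_le_mul' (Q hIp τ hτ hτ1 s hs A hAs) (le_refl (ENNReal.ofReal (∫ x, |x| ∂ν)))
        have e : ENNReal.ofReal (Pool.Agent.Helper35.SV.kc ν τ s / ∫ x, |x| ∂ν) * volume A *
            ENNReal.ofReal (∫ x, |x| ∂ν) = ENNReal.ofReal (Pool.Agent.Helper35.SV.kc ν τ s) * volume A := by
          rw [mul_right_comm, ← ENNReal.ofReal_mul (div_nonneg
            (Pool.Agent.Helper35.SV.kc_nonneg _ _ _) hIp.le), div_mul_cancel₀ _ hIp.ne']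
        rw [e] at h1
        exact h1
  · intro B hB
    obtain ⟨ν, hν, h1, h2, h3, h4, h5⟩ := Pool.Agent.Helper26.SV.sharp B hB
    have hv : (volume Pool.Agent.Helper35.SV.usq).toReal = 1 := by rw [h3]; simp
    have hso : IsOpen Pool.Agent.Helper35.SV.usq := by
      have a1 : IsOpen {z : ℂ | 0 < z.re ∧ z.re < 1} :=
        (isOpen_lt continuous_const Complex.continuous_re).inter
          (isOpen_lt Complex.continuous_re continuous_const)
      have a2 : IsOpen {z : ℂ | 0 < z.im ∧ z.im < 1} :=
        (isOpen_lt continuous_const Complex.continuous_im).inter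
          (isOpen_lt Complex.continuous_im continuous_const)
      exact a1.inter a2
    have hcont : ∀ n : ℕ, Continuous fun z : ℂ => √(2 * B) * Real.cos (2 * Real.pi * (n + 1) * z.re) :=
      fun n => by fun_prop
    have hfm : IsFiniteMeasure ((volume : Measure ℂ).restrict Pool.Agent.Helper35.SV.usq) :=
      ⟨by rw [Measure.restrict_apply_univ, h3]; exact ENNReal.one_lt_top⟩
    have hatom : ν {0} = 0 := by
      have t1 : Tendsto (fun s : ℝ => ENNReal.ofReal (2 * s)) (𝓝[>] 0) (𝓝 0) := by
        have h6 : Continuous fun s : ℝ => ENNReal.ofReal (2 * s) :=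
          ENNReal.continuous_ofReal.comp (by fun_prop)
        have h7 := (h6.tendsto 0).mono_left (nhdsWithin_le_nhds (s := Set.Ioi 0))
        simpa using h7
      have t2 := ENNReal.Tendsto.mul h4 (Or.inr ENNReal.zero_ne_top) t1 (Or.inr ENNReal.ofReal_ne_top)
      rw [mul_zero] at t2
      refine le_antisymm (ge_of_tendsto t2 ?_) bot_le
      filter_upwards [self_mem_nhdsWithin] with s hs
      have hs' : (0 : ℝ) < s := hs
      rw [ENNReal.div_mul_cancel (by simpa using hs') ENNReal.ofReal_ne_top]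
      refine measure_mono fun x hx => ?_
      rw [Set.mem_singleton_iff] at hx
      rw [hx]
      constructor <;> linarith
    refine ⟨fun n => (2 * Real.pi * ((n : ℝ) + 1)) ^ 2,
      fun n z => √(2 * B) * Real.cos (2 * Real.pi * (n + 1) * z.re), Pool.Agent.Helper35.SV.usq, ν,
      plane_atlas, ?_, fun n i => ⟨?_, fun z _ => ?_⟩, hso, h3, fun n => ?_, fun n => ?_, hν, ?_, hatom,
      h4, ?_⟩
    · have t1 : Tendsto (fun n : ℕ => (n : ℝ) + 1) atTop atTop :=
        tendsto_atTop_add_const_right _ _ tendsto_natCast_atTop_atTop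
      exact (tendsto_pow_atTop two_ne_zero).comp (t1.const_mul_atTop (by positivity))
    · have a1 : ContDiff ℝ ∞ (fun z : ℂ => z.re) := Complex.reCLM.contDiff
      exact (contDiff_const.mul ((contDiff_const.mul a1).cos)).contDiffOn
    · have := plane_lap √(2 * B) (2 * Real.pi * ((n : ℝ) + 1)) z
      rw [mul_one]
      exact this
    · refine Integrable.of_bound ((hcont n).pow 2).aestronglyMeasurable (2 * B)
        (ae_of_all _ fun z => ?_)
      rw [Real.norm_eq_abs, abs_of_nonneg (sq_nonneg _), mul_pow, Real.sq_sqrt (by positivity)]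
      exact mul_le_of_le_one_right (by positivity) (Real.cos_sq_le_one _)
    · unfold mean
      rw [hv, div_one]
      exact h2 n
    · refine ⟨id, strictMono_id, fun g cg _ => ?_⟩
      unfold mean
      rw [hv]
      simp only [div_one, id]
      refine tendsto_const_nhds.congr fun n => ?_
      exact (h1 n g cg).symm
    · have hI : ∫ x, |x| ∂ν = 2 / Real.pi * √(2 * B) := by
        rw [integral_eq_lintegral_of_nonneg_ae (ae_of_all _ fun x => abs_nonneg x)
          continuous_abs.aestronglyMeasurable, h5, ENNReal.toReal_ofReal (by positivity)]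
      rw [hI]
      exact form B hB

end

end Pool.Agent.Results.MP_a52643_an.SmallValuesSharp
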