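import Pool.Agent.H25.TI.M12
import Pool.Agent.H25.TI.M2
import Pool.Agent.H25.TI.M5
import Pool.Agent.H25.TI.M6
import Pool.Graph.R_pool_sql_team_seeded_b677cdb8.E8helper33.EN.Ibp
import Pool.Graph.R_pool_sql_team_seeded_b677cdb8.E8helper8.EN.Vag
import Pool.Graph.R_pool_sql_team_seeded_b677cdb8.E8helper41.EN.Fub

/-!
# A differential inequality for the limit laws of the values of eigenfunctions (MP_a52643_an)

A Riemannian surface is described by finitely many isothermal charts: open sets `Ω i ⊆ ℂ` with the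
metrics `ρ i |dz|²`, so `dvol = ρ dx dy` and `Δ_g = ρ⁻¹ (∂x² + ∂y²)`. The functions `u i n` are the
coordinate forms of real eigenfunctions with the eigenvalue `lam n`, and `φ i` are nonnegative test
functions, for instance a partition of unity of a compact surface `X`, when
`value ρ φ u n g = ∫_X g(u_n) dvol`.
-/

set_option autoImplicit false
open MeasureTheory Filter Topology Complex Set
open scoped ContDiff ENNReal NNReal

namespace Pool.Agent.Results.MP_a52643_an.TailInequality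

noncomputable section

/-- the Laplacian `∂x² + ∂y²` -/
def lapl (f : ℂ → ℝ) (z : ℂ) : ℝ :=
  fderiv ℝ (fun w => fderiv ℝ f w 1) z 1 + fderiv ℝ (fun w => fderiv ℝ f w I) z I

/-- A chart `Ω` with the metric `ρ |dz|²`, real solutions `u n` of `Δ_g u + lam n u = 0` with
`lam n → ∞`, locally bounded in `L²`, and a nonnegative test function `φ`. -/
structure Chart (Ω : Set ℂ) (ρ : ℂ → ℝ) (lam : ℕ → ℝ) (u : ℕ → ℂ → ℝ) (φ : ℂ → ℝ) : Prop where
  isOpen : IsOpen Ω
  metric_smooth : ContDiffOn ℝ ∞ ρ Ω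
  metric_pos : ∀ z ∈ Ω, 0 < ρ z
  lam_tendsto : Tendsto lam atTop atTop
  smooth : ∀ n, ContDiffOn ℝ ∞ (u n) Ω
  eigen : ∀ n, ∀ z ∈ Ω, lapl (u n) z + lam n * (ρ z * u n z) = 0
  locL2 : ∀ K : Set ℂ, IsCompact K → K ⊆ Ω → ∃ C : ℝ, ∀ᶠ n in atTop, ∫ z in K, u n z ^ 2 ≤ C
  test_smooth : ContDiff ℝ ∞ φ
  test_compact : HasCompactSupport φ
  test_support : tsupport φ ⊆ Ω
  test_nonneg : ∀ z, 0 ≤ φ z

/-- the law of the values of `u_n`: `g ↦ ∑ ∫ φ g(u_n) dvol` -/
def value {ι : Type} [Fintype ι] (ρ φ : ι → ℂ → ℝ) (u : ι → ℕ → ℂ → ℝ) (n : ℕ) (g : ℝ → ℝ) :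
    ℝ :=
  ∑ i, ∫ z, φ i z * (g (u i n z) * ρ i z)

/-- the integrated tail `H(s) = ∫ (x - s)⁺ dν(x) = ∫_{t > s} ν((t,∞)) dt` -/
def tailInt (ν : Measure ℝ) (s : ℝ) : ℝ := ∫ x, max (x - s) 0 ∂ν

/-- the mean excess over the level `s`: the mean of `x - s` over the values `x > s` -/
def meanExcess (ν : Measure ℝ) (s : ℝ) : ℝ := tailInt ν s / ν.real (Ioi s)

/-- The inequality `(H')² ≤ 12 (1 + 1/π)² H H''` for the integrated tail `H`, on `[0,∞)`, in
integrated form (`H' = -ν((s,∞))`, `H'' = ν`, `12 (1 + 1/π)² < 21`), and its consequence for the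
mean excess. -/
def TailBound (ν : Measure ℝ) : Prop := ∀ a b : ℝ, 0 ≤ a → a < b →
  (∫ s in a..b, ν.real (Ioi s)) ^ 2 ≤
    12 * (1 + 1 / Real.pi) ^ 2 * (ν.real (Ioo a b) * ∫ s in a..b, tailInt ν s) ∧
  (0 < ν.real (Ioi b) → meanExcess ν a - 20 / 21 * (b - a) ≤ meanExcess ν b)

/-- **Result.** Every vague limit `ν` of the laws of the values along a subsequence satisfies the
tail inequality at the positive values, and so does its reflection `x ↦ -x`, so that it holds at the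
negative values too. -/
theorem result (ι : Type) [Fintype ι] [Nonempty ι] (Ω : ι → Set ℂ) (ρ φ : ι → ℂ → ℝ)
    (lam : ℕ → ℝ) (u : ι → ℕ → ℂ → ℝ) (H : ∀ i, Chart (Ω i) (ρ i) lam (u i) (φ i)) (σ : ℕ → ℕ)
    (ν : Measure ℝ) (hσ : StrictMono σ) (hν : IsFiniteMeasure ν)
    (hlim : ∀ g : ℝ → ℝ, Continuous g → HasCompactSupport g →
      Tendsto (fun n => value ρ φ u (σ n) g) atTop (𝓝 (∫ x, g x ∂ν))) :
    TailBound ν ∧ TailBound (ν.map fun x => -x) := by
  have K : ∀ i, Pool.Agent.E8helper19.EN.Hy (Ω i) (ρ i) lam (u i) (φ i) := fun i =>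
    ⟨(H i).isOpen, (H i).metric_smooth, (H i).metric_pos, (H i).lam_tendsto, (H i).smooth,
      (H i).eigen, (H i).locL2, (H i).test_smooth, (H i).test_compact, (H i).test_support,
      (H i).test_nonneg⟩
  have K' : ∀ i, Pool.Agent.E8helper19.EN.Hy (Ω i) (ρ i) (fun n => lam (σ n))
      (fun n => u i (σ n)) (φ i) := fun i => (K i).sub hσ
  exact Pool.Agent.H25.TI.cl_both Pool.Agent.E8helper33.EN.t_IBP Pool.Agent.E8helper8.EN.t_VAG
    Pool.Agent.E8helper41.EN.t_FUB Pool.Agent.H25.TI.m2 Pool.Agent.H25.TI.m5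
    Pool.Agent.H25.TI.m6 K' hν hlim

end

end Pool.Agent.Results.MP_a52643_an.TailInequality
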